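import Pool.Agent.Q161.ESN.Stm2
import Pool.Agent.Q237.ESM.Mom2

/-!
# Project ESN (helper161), job MOM2: high moments

The proofs are those of `Pool.Agent.Q195.EA.Fac`, `Pool.Agent.Q195.EA.Omg` (helper195) and `Pool.Agent.Q237.ESM.Mom2`
(helper237), with the weaker condition `Nice` of project ESN.
-/

set_option autoImplicit false

namespace Pool.Agent.Q123.ESN

open Finset NumberField IsDedekindDomain Filter UniqueFactorizationMonoid
open Pool.Agent.Q161.EA (Om)
open Pool.Agent.Q51.EL (pr N1)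
open Pool.Agent.Q161.ESM (ChP S_LSF2)
open Pool.Agent.Q161.ESN (Nice S_MOM2)
open Pool.Agent.Q237.EA (om_prod)
open Pool.Agent.Q237.ESM (mom_num psi_prod mom_core)
open Pool.Agent.Q195.EA.Fac (fac_multiset)
open Pool.Agent.Q195.EA.Omg (absNorm_eq_prod absNorm_le log_16)

variable {L : Type} [Field L] [NumberField L]

/-- the ratio of two balanced elements with the same norm -/
theorem ratio {K : ℝ} {α β : 𝓞 L} (hα : Nice K α) (hβ : Nice K β)
    (h : Ideal.absNorm (Ideal.span {α}) = Ideal.absNorm (Ideal.span {β})) (σ : L →+* ℂ) :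
    ‖σ (α : L)‖ ≤ K * ‖σ (β : L)‖ := by
  obtain ⟨n, hn⟩ : ∃ n, n = Module.finrank ℚ L := ⟨_, rfl⟩
  have hn0 : 0 < n := by rw [hn]; exact Module.finrank_pos
  obtain ⟨N, hN⟩ : ∃ N : ℝ, N = ((Ideal.absNorm (Ideal.span {β}) : ℕ) : ℝ) := ⟨_, rfl⟩
  have hN0 : 0 < N := by
    rw [hN, Nat.cast_pos, Nat.pos_iff_ne_zero, Ne, Ideal.absNorm_eq_zero_iff,
      Ideal.span_singleton_eq_bot]
    exact hβ.ne
  have h1 : ∀ τ : L →+* ℂ, ‖τ (β : L)‖ ^ n ≤ K * N := by
    intro τ
    rw [hn, hN]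
    exact hβ.bal τ
  have h2 : ‖σ (α : L)‖ ^ n ≤ K * N := by
    rw [hn, hN, ← h]
    exact hα.bal σ
  have hβ0 : (β : L) ≠ 0 := by
    have := hβ.ne
    exact_mod_cast this
  have hs0 : 0 < ‖σ (β : L)‖ := norm_pos_iff.2 ((map_ne_zero σ).2 hβ0)
  have hK0 : 0 < K := by
    have h3 : 0 < K * N := (pow_pos hs0 n).trans_le (h1 σ)
    exact pos_of_mul_pos_left h3 hN0.le
  -- the product of the other conjugates
  have h3 : N = ∏ τ : L →ₐ[ℚ] ℂ, ‖τ (β : L)‖ := by
    rw [hN]
    exact Pool.Agent.Q195.EA.Omg.absNorm_eq_prod β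
  have h4 : N ≤ ‖σ (β : L)‖ ^ n * K ^ (n - 1) := by
    classical
    have h5 : N ^ n = ∏ τ : L →ₐ[ℚ] ℂ, ‖τ (β : L)‖ ^ n := by
      rw [h3, Finset.prod_pow]
    have h6 : ∏ τ : L →ₐ[ℚ] ℂ, ‖τ (β : L)‖ ^ n ≤ ‖σ (β : L)‖ ^ n * (K * N) ^ (n - 1) := by
      rw [← Finset.mul_prod_erase univ _ (mem_univ σ.toRatAlgHom)]
      refine mul_le_mul (le_of_eq rfl) ?_ (Finset.prod_nonneg fun _ _ => by positivity) (by positivity)
      calc ∏ τ ∈ univ.erase σ.toRatAlgHom, ‖τ (β : L)‖ ^ n ≤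
            ∏ _τ ∈ (univ : Finset (L →ₐ[ℚ] ℂ)).erase σ.toRatAlgHom, (K * N) :=
            Finset.prod_le_prod (fun _ _ => by positivity) (fun τ _ => h1 τ.toRingHom)
        _ = (K * N) ^ (n - 1) := by
            rw [Finset.prod_const, card_erase_of_mem (mem_univ _), Finset.card_univ, AlgHom.card, hn]
    have h7 : N ^ n = N ^ (n - 1) * N := by
      rw [← pow_succ]
      congr 1
      omega
    rw [← h5, h7, mul_pow] at h6
    have h8 : 0 < N ^ (n - 1) := pow_pos hN0 _
    have h9 : N ^ (n - 1) * N ≤ N ^ (n - 1) * (‖σ (β : L)‖ ^ n * K ^ (n - 1)) := by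
      calc N ^ (n - 1) * N ≤ _ := h6
        _ = _ := by ring
    exact le_of_mul_le_mul_left h9 h8
  have h10 : ‖σ (α : L)‖ ^ n ≤ (K * ‖σ (β : L)‖) ^ n := by
    calc ‖σ (α : L)‖ ^ n ≤ K * N := h2
      _ ≤ K * (‖σ (β : L)‖ ^ n * K ^ (n - 1)) := mul_le_mul_of_nonneg_left h4 hK0.le
      _ = (K ^ (n - 1) * K) * ‖σ (β : L)‖ ^ n := by ring
      _ = (K * ‖σ (β : L)‖) ^ n := by
          rw [← pow_succ, Nat.sub_add_cancel hn0, mul_pow]
  exact le_of_pow_le_pow_left₀ hn0.ne' (by positivity) h10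

/-- the number of the balanced elements with the same ideal -/
theorem fibre (L : Type) [Field L] [NumberField L] (K : ℝ) : ∃ U : ℕ, 1 ≤ U ∧
    ∀ A : Finset (𝓞 L), (∀ α ∈ A, Nice K α) →
      (∀ α ∈ A, ∀ β ∈ A, Ideal.span {α} = Ideal.span {β}) → A.card ≤ U := by
  have hfin : {x : L | IsIntegral ℤ x ∧ ∀ φ : L →+* ℂ, ‖φ x‖ ≤ K}.Finite :=
    NumberField.Embeddings.finite_of_norm_le L ℂ K
  refine ⟨{x : L | IsIntegral ℤ x ∧ ∀ φ : L →+* ℂ, ‖φ x‖ ≤ K}.ncard + 1, by omega,
    fun A hA hs => ?_⟩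
  rcases A.eq_empty_or_nonempty with h0 | ⟨β, hβ⟩
  · rw [h0]; simp
  have hβ0 : (β : L) ≠ 0 := by
    have := (hA β hβ).ne
    exact_mod_cast this
  have h1 : (A : Set (𝓞 L)).ncard ≤ {x : L | IsIntegral ℤ x ∧ ∀ φ : L →+* ℂ, ‖φ x‖ ≤ K}.ncard := by
    refine Set.ncard_le_ncard_of_injOn (fun α => (α : L) / (β : L)) ?_ ?_ hfin
    · intro α hα
      rw [Finset.mem_coe] at hα
      have h2 := hs α hα β hβ
      have h3 : Associated β α := (Ideal.span_singleton_eq_span_singleton.1 h2).symm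
      obtain ⟨u, hu⟩ := h3
      refine ⟨?_, fun φ => ?_⟩
      · have h4 : (α : L) / (β : L) = ((u : 𝓞 L) : L) := by
          rw [← hu, RingOfIntegers.coe_eq_algebraMap (β * _), map_mul, ← RingOfIntegers.coe_eq_algebraMap, ← RingOfIntegers.coe_eq_algebraMap, mul_div_cancel_left₀ _ hβ0]
        rw [h4]
        exact RingOfIntegers.isIntegral_coe _
      · rw [map_div₀, norm_div, div_le_iff₀ (norm_pos_iff.2 ((map_ne_zero φ).2 hβ0))]
        exact ratio (hA α hα) (hA β hβ) (by rw [h2]) φ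
    · intro α _ α' _ h
      simp only at h
      rw [div_left_inj' hβ0] at h
      exact_mod_cast h
  rw [Set.ncard_coe_finset] at h1
  omega

open Classical in
theorem fac : ∀ (L : Type) [Field L] [NumberField L] (K : ℝ), ∃ U : ℝ, 1 ≤ U ∧
    ∀ (k : ℕ) (A : Finset (𝓞 L)) (a : 𝓞 L), 1 ≤ k → (∀ α ∈ A, Nice K α) →
      (((Fintype.piFinset (fun _ : Fin k => A)).filter (fun x => ∏ i, x i = a)).card : ℝ) ≤
        U ^ k * (k : ℝ) ^ Om a := by
  intro L _ _ K
  obtain ⟨U, hU1, hU⟩ := fibre L K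
  refine ⟨U, by exact_mod_cast hU1, fun k A a hk hA => ?_⟩
  let X := (Fintype.piFinset (fun _ : Fin k => A)).filter (fun x => ∏ i, x i = a)
  let F : (Fin k → 𝓞 L) → (Fin k → Multiset (Ideal (𝓞 L))) := fun x i =>
    normalizedFactors (Ideal.span {x i})
  have hne : ∀ x ∈ X, ∀ i, Nice K (x i) := by
    intro x hx i
    exact hA _ (Fintype.mem_piFinset.1 (mem_filter.1 hx).1 i)
  have hsp : ∀ α : 𝓞 L, α ≠ 0 → Ideal.span {α} ≠ 0 := by
    intro α hα
    rw [Ne, Ideal.zero_eq_bot, Ideal.span_singleton_eq_bot]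
    exact hα
  have hsum : ∀ x : Fin k → 𝓞 L, (∀ i, x i ≠ 0) →
      ∑ i, F x i = normalizedFactors (Ideal.span {∏ i, x i}) := by
    intro x hx
    have h1 : ∀ s : Finset (Fin k), ∑ i ∈ s, F x i = normalizedFactors (Ideal.span {∏ i ∈ s, x i}) := by
      intro s
      induction s using Finset.induction_on with
      | empty =>
        rw [sum_empty, prod_empty, Ideal.span_singleton_one, ← Ideal.one_eq_top, normalizedFactors_one]
      | insert i s hi ih =>
        rw [sum_insert hi, prod_insert hi, ← Ideal.span_singleton_mul_span_singleton,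
          normalizedFactors_mul (hsp _ (hx i)) (hsp _ (prod_ne_zero_iff.2 fun j _ => hx j)), ih]
    exact h1 univ
  obtain ⟨hfin, hcard⟩ := fac_multiset k (normalizedFactors (Ideal.span {a}))
  have himg : ((X.image F : Finset _) : Set (Fin k → Multiset (Ideal (𝓞 L)))) ⊆
      {f : Fin k → Multiset (Ideal (𝓞 L)) | ∑ i, f i = normalizedFactors (Ideal.span {a})} := by
    intro f hf
    rw [Finset.mem_coe, mem_image] at hf
    obtain ⟨x, hx, rfl⟩ := hf
    rw [Set.mem_ofPred_eq, hsum x fun i => (hne x hx i).ne, (mem_filter.1 hx).2]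
  have h1 : (X.image F).card ≤ k ^ Om a := by
    rw [← Set.ncard_coe_finset]
    exact (Set.ncard_le_ncard himg hfin).trans hcard
  have h2 : ∀ f ∈ X.image F, #{x ∈ X | F x = f} ≤ U ^ k := by
    intro f _
    have h3 : {x ∈ X | F x = f} ⊆ Fintype.piFinset (fun i : Fin k =>
        A.filter (fun α => normalizedFactors (Ideal.span {α}) = f i)) := by
      intro x hx
      rw [mem_filter] at hx
      rw [Fintype.mem_piFinset]
      intro i
      rw [mem_filter]
      refine ⟨Fintype.mem_piFinset.1 (mem_filter.1 hx.1).1 i, ?_⟩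
      exact congrFun hx.2 i
    refine (card_le_card h3).trans ?_
    rw [Fintype.card_piFinset]
    refine (Finset.prod_le_prod' (g := fun _ : Fin k => U) fun i _ => ?_).trans ?_
    · refine hU _ (fun α hα => hA α (mem_filter.1 hα).1) fun α hα β hβ => ?_
      have h4 := (mem_filter.1 hα).2
      rw [← (mem_filter.1 hβ).2] at h4
      have h5 := (associated_iff_normalizedFactors_eq_normalizedFactors
        (hsp _ (hA α (mem_filter.1 hα).1).ne) (hsp _ (hA β (mem_filter.1 hβ).1).ne)).2 h4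
      exact associated_iff_eq.1 h5
    · rw [prod_const, card_univ, Fintype.card_fin]
  have h3 : X.card ≤ U ^ k * k ^ Om a :=
    (card_le_mul_card_image X (U ^ k) h2).trans (Nat.mul_le_mul_left _ h1)
  exact_mod_cast h3

theorem omg : ∀ (L : Type) [Field L] [NumberField L] (K : ℝ), ∃ C : ℝ, 0 < C ∧
    ∀ (Y : ℝ) (α : 𝓞 L), 16 ≤ Y → Nice K α → (∀ σ : L →+* ℂ, ‖σ (α : L)‖ ≤ Y) →
      (Om α : ℝ) ≤ C * Real.log Y / Real.log (Real.log Y) := by
  intro L _ _ K
  have hn0 : 0 < Module.finrank ℚ L := Module.finrank_pos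
  obtain ⟨n, hn⟩ : ∃ n, n = Module.finrank ℚ L := ⟨_, rfl⟩
  rw [← hn] at hn0
  have hn1 : (1 : ℝ) ≤ n := by exact_mod_cast hn0
  refine ⟨(|K| + 1) * (1 + 4 * n), by positivity, fun Y α hY hα hσ => ?_⟩
  have hA : 2 < Real.log Y := log_16.trans_le (Real.log_le_log (by norm_num) hY)
  obtain ⟨A, hAA⟩ : ∃ A, A = Real.log Y := ⟨_, rfl⟩
  rw [← hAA] at hA ⊢
  have hB : 0 < Real.log A := Real.log_pos (by linarith)
  have hBA : Real.log A ≤ A := Real.log_le_self (by linarith)
  have h1 : (1 : ℝ) ≤ A / Real.log A := by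
    rw [le_div_iff₀ hB]
    linarith
  have hN0 : Ideal.absNorm (Ideal.span {α}) ≠ 0 := by
    rw [Ne, Ideal.absNorm_eq_zero_iff, Ideal.span_singleton_eq_bot]
    exact hα.ne
  have hlogN : Real.log (Ideal.absNorm (Ideal.span {α}) : ℕ) ≤ n * A := by
    have h2 := absNorm_le hσ
    rw [← hn] at h2
    have h3 := Real.log_le_log (by exact_mod_cast Nat.pos_of_ne_zero hN0) h2
    rw [Real.log_pow, ← hAA] at h3
    exact h3
  have hX : (1 : ℝ) < n * A := by nlinarith
  have h4 := Pool.Agent.TH358.SN.omega_le hN0 hX hlogN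
  have h5 : Real.log A ≤ Real.log (n * A) := Real.log_le_log (by linarith) (by nlinarith)
  have h6 : 4 * (n * A) / Real.log (n * A) ≤ 4 * (n * A) / Real.log A :=
    div_le_div_of_nonneg_left (by positivity) hB h5
  have h7 := hα.om
  have h8 : K ≤ |K| + 1 := (le_abs_self K).trans (by linarith)
  have h9 : 0 ≤ 1 + (((Ideal.absNorm (Ideal.span {α})).primeFactors.card : ℕ) : ℝ) := by positivity
  calc (Om α : ℝ) ≤ K * (1 + (((Ideal.absNorm (Ideal.span {α})).primeFactors.card : ℕ) : ℝ)) := h7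
    _ ≤ (|K| + 1) * (1 + (((Ideal.absNorm (Ideal.span {α})).primeFactors.card : ℕ) : ℝ)) :=
        mul_le_mul_of_nonneg_right h8 h9
    _ ≤ (|K| + 1) * (A / Real.log A + 4 * (n * A) / Real.log A) :=
        mul_le_mul_of_nonneg_left (add_le_add h1 (h4.trans h6)) (by positivity)
    _ = (|K| + 1) * (1 + 4 * n) * A / Real.log A := by ring

open Classical in
/-- JOB MOM2 -/
theorem mom2 : S_LSF2 → S_MOM2 := by
  intro hLSF L _ _ B P0 ψ K a hψ
  have hFAC := fac
  have hOMG := omg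
  obtain ⟨m, hm⟩ : ∃ m : ℕ, a ≤ m := ⟨⌈a⌉₊, Nat.le_ceil a⟩
  obtain ⟨C, hC, hlsf⟩ := hLSF L
  obtain ⟨U, hU, hfac⟩ := hFAC L K
  obtain ⟨C4, hC4, homg⟩ := hOMG L K
  obtain ⟨b, hb⟩ : ∃ b : ℝ, b = 1 / (100 * (C4 + 1)) := ⟨_, rfl⟩
  have hb0 : 0 < b := by rw [hb]; positivity
  have hbC : 2 * b * C4 ≤ 1 / 50 := by
    rw [hb]
    have h1 : 0 < 100 * (C4 + 1) := by positivity
    rw [mul_one_div, div_mul_eq_mul_div, div_le_div_iff₀ h1 (by norm_num)]
    nlinarith
  obtain ⟨Y0, hY0, hnum⟩ := mom_num b ((2 * C) ^ Module.finrank ℚ L) U m hb0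
  refine ⟨b, Y0, hb0, hY0, ?_⟩
  intro Y R A P hY hYR hRb hA hAc hP
  obtain ⟨n1, n2, n3⟩ := hnum Y hY
  have hY16 : 16 ≤ Y := hY0.trans hY
  have hYpos : 0 < Y := by linarith
  obtain ⟨x, hx⟩ : ∃ x, x = Real.log Y := ⟨_, rfl⟩
  rw [← hx] at n1 n2 n3 hRb hAc
  have hlog16 : Real.log 16 ≤ x := by
    rw [hx]
    exact Real.log_le_log (by norm_num) hY16
  have hl2 := Real.log_two_gt_d9
  have h16 : Real.log 16 = 4 * Real.log 2 := by
    rw [show (16 : ℝ) = 2 ^ 4 by norm_num, Real.log_pow]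
    norm_num
  have h4 : Real.log 4 = 2 * Real.log 2 := by
    rw [show (4 : ℝ) = 2 ^ 2 by norm_num, Real.log_pow]
    norm_num
  have hx27 : 2.77 ≤ x := by linarith
  have hx0 : 0 < x := by linarith
  replace hAc : Y ^ Module.finrank ℚ L ≤ (A.card : ℝ) * x ^ m := by
    refine hAc.trans (mul_le_mul_of_nonneg_left ?_ (Nat.cast_nonneg _))
    rw [← Real.rpow_natCast]
    exact Real.rpow_le_rpow_of_exponent_le (by linarith) hm
  have hlx : 1 ≤ Real.log x := by
    rw [Real.le_log_iff_exp_le hx0]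
    have := Real.exp_one_lt_d9
    linarith
  have hsY : 1 ≤ Real.sqrt Y := by
    rw [Real.one_le_sqrt]
    linarith
  have hR1 : 1 ≤ R := hsY.trans hYR
  have hRpos : 0 < R := by linarith
  have hYR2 : Y ≤ R ^ 2 := by
    have := Real.sq_sqrt hYpos.le
    calc Y = Real.sqrt Y ^ 2 := this.symm
      _ ≤ R ^ 2 := pow_le_pow_left₀ (Real.sqrt_nonneg _) hYR 2
  have hxR : x ≤ 2 * Real.log R := by
    have h1 := Real.log_le_log hYpos hYR2
    rw [Real.log_pow] at h1
    push_cast at h1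
    rw [hx]
    exact h1
  -- the exponent `k`
  obtain ⟨t, ht⟩ : ∃ t, t = (Real.log 4 + 2 * Real.log R) / x := ⟨_, rfl⟩
  have htx : t * x = Real.log 4 + 2 * Real.log R := by
    rw [ht]
    field_simp
  obtain ⟨k, hk⟩ : ∃ k : ℕ, k = max ⌈t⌉₊ 2 := ⟨_, rfl⟩
  have hk2 : 2 ≤ k := by rw [hk]; exact le_max_right _ _
  have hkt : t ≤ k := by
    rw [hk]
    exact (Nat.le_ceil t).trans (by exact_mod_cast le_max_left _ _)
  have hlR0 : 0 ≤ Real.log R := Real.log_nonneg hR1
  have ht0 : 0 ≤ t := by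
    rw [ht]
    apply div_nonneg _ hx0.le
    have : 0 ≤ Real.log 4 := Real.log_nonneg (by norm_num)
    linarith
  have hxb : 1 ≤ x ^ b := Real.one_le_rpow (by linarith) hb0.le
  have hx1b : x ^ (1 + b) = x * x ^ b := by
    rw [Real.rpow_add hx0, Real.rpow_one]
  have htb : t ≤ 1 + 2 * x ^ b := by
    rw [ht, div_le_iff₀ hx0]
    rw [hx1b] at hRb
    have : Real.log 4 ≤ x := by linarith
    nlinarith
  have hkb : (k : ℝ) ≤ 2 + 2 * x ^ b := by
    rw [hk]
    push_cast
    apply max_le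
    · have := (Nat.ceil_lt_add_one ht0).le
      linarith
    · linarith
  have hkx : (k : ℝ) * x ≤ Real.log 4 + 4 * Real.log R := by
    rcases le_total ⌈t⌉₊ 2 with h | h
    · have hk' : (k : ℝ) = 2 := by
        rw [hk, max_eq_right h]
        norm_num
      rw [hk']
      have : 0 ≤ Real.log 4 := Real.log_nonneg (by norm_num)
      linarith
    · have hk' : (k : ℝ) = (⌈t⌉₊ : ℝ) := by
        rw [hk, max_eq_left h]
      rw [hk']
      have h1 := (Nat.ceil_lt_add_one ht0).le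
      have h2 : (⌈t⌉₊ : ℝ) * x ≤ (t + 1) * x := mul_le_mul_of_nonneg_right h1 hx0.le
      have h3 : (t + 1) * x = t * x + x := by ring
      rw [h3, htx] at h2
      linarith
  have hkR : 4 * R ^ 2 ≤ Y ^ k := by
    have h1 : Real.log (4 * R ^ 2) ≤ Real.log (Y ^ k) := by
      rw [Real.log_mul (by norm_num) (by positivity), Real.log_pow, Real.log_pow, ← hx]
      push_cast
      rw [← htx]
      exact mul_le_mul_of_nonneg_right hkt hx0.le
    exact (Real.log_le_log_iff (by positivity) (by positivity)).1 h1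
  -- the bound for the number of the factorisations
  obtain ⟨H, hH⟩ : ∃ H, H = C4 * x / Real.log x := ⟨_, rfl⟩
  have hkpos : 0 < (k : ℝ) := by
    have : 0 < k := by omega
    exact_mod_cast this
  have hlk0 : 0 ≤ Real.log k := Real.log_nonneg (by exact_mod_cast (by omega : 1 ≤ k))
  have hHk : H * Real.log k ≤ x / 50 := by
    have h1 : Real.log k ≤ 2 * b * Real.log x := by
      have h2 : Real.log k ≤ Real.log (x ^ (2 * b)) := Real.log_le_log hkpos (hkb.trans n1)
      rw [Real.log_rpow hx0] at h2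
      exact h2
    have h2 : 0 ≤ H := by rw [hH]; positivity
    calc H * Real.log k ≤ H * (2 * b * Real.log x) := mul_le_mul_of_nonneg_left h1 h2
      _ = (2 * b * C4) * x := by
          rw [hH]
          have : Real.log x ≠ 0 := by positivity
          field_simp
      _ ≤ 1 / 50 * x := mul_le_mul_of_nonneg_right hbC hx0.le
      _ = x / 50 := by ring
  have hD : ∀ y ∈ Fintype.piFinset (fun _ : Fin k => A),
      (((Fintype.piFinset (fun _ : Fin k => A)).filter (fun z => ∏ i, z i = ∏ i, y i)).card : ℝ) ≤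
        U ^ k * Real.exp (k * x / 50) := by
    intro y hy
    rw [Fintype.mem_piFinset] at hy
    refine (hfac k A (∏ i, y i) (by omega) (fun α hα => (hA α hα).1)).trans ?_
    refine mul_le_mul_of_nonneg_left ?_ (by positivity)
    have h1 : (Om (∏ i, y i) : ℝ) ≤ k * H := by
      rw [om_prod k y (fun i => (hA _ (hy i)).1.ne)]
      push_cast
      calc ∑ i, (Om (y i) : ℝ) ≤ ∑ _i : Fin k, H := by
            refine Finset.sum_le_sum fun i _ => ?_
            have := homg Y (y i) hY16 (hA _ (hy i)).1 (hA _ (hy i)).2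
            rw [← hx] at this
            rw [hH]
            exact this
        _ = k * H := by
            rw [Finset.sum_const, Finset.card_univ, Fintype.card_fin, nsmul_eq_mul]
    rw [← Real.rpow_natCast, Real.rpow_def_of_pos hkpos]
    apply Real.exp_le_exp.2
    calc Real.log k * (Om (∏ i, y i) : ℝ) ≤ Real.log k * (k * H) := mul_le_mul_of_nonneg_left h1 hlk0
      _ = k * (H * Real.log k) := by ring
      _ ≤ k * (x / 50) := mul_le_mul_of_nonneg_left hHk hkpos.le
      _ = k * x / 50 := by ring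
  have hcore := mom_core hψ hC (fun W R' P' A' c => hlsf B P0 ψ hψ W R' P' A' c) (by linarith : 1 ≤ Y)
    hR1 k (by omega) hkR A (fun α hα => (hA α hα).2) P hP hD
  -- conclusion
  have hApos : 0 < (A.card : ℝ) := by
    rcases Nat.eq_zero_or_pos A.card with h | h
    · rw [h] at hAc
      have : 0 < Y ^ Module.finrank ℚ L := by positivity
      norm_num at hAc
      linarith
    · exact_mod_cast h
  have hAk : 0 < (A.card : ℝ) ^ k := by positivity
  have h6 : (Y ^ k) ^ Module.finrank ℚ L ≤ (A.card : ℝ) ^ k * (x ^ m) ^ k := by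
    rw [← pow_mul, mul_comm k, pow_mul, ← mul_pow]
    exact pow_le_pow_left₀ (by positivity) hAc k
  have h7 : (P.card : ℝ) * ((A.card : ℝ) ^ k * (A.card : ℝ) ^ k) ≤
      ((2 * C) ^ Module.finrank ℚ L * ((16 * U * x ^ m) ^ k * Real.exp (k * x / 50))) *
        ((A.card : ℝ) ^ k * (A.card : ℝ) ^ k) := by
    have e1 : (P.card : ℝ) * ((A.card : ℝ) ^ k * (A.card : ℝ) ^ k) =
        16 ^ k * ((P.card : ℝ) * (((A.card : ℝ) / 4) ^ k) ^ 2) := by
      rw [div_pow]
      have : (16 : ℝ) ^ k = (4 ^ k) ^ 2 := by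
        rw [← pow_mul, mul_comm, pow_mul]
        norm_num
      rw [this]
      field_simp
    rw [e1]
    calc 16 ^ k * ((P.card : ℝ) * (((A.card : ℝ) / 4) ^ k) ^ 2) ≤
        16 ^ k * ((2 * C * Y ^ k) ^ Module.finrank ℚ L *
          (U ^ k * Real.exp (k * x / 50) * (A.card : ℝ) ^ k)) :=
          mul_le_mul_of_nonneg_left hcore (by positivity)
      _ = 16 ^ k * ((2 * C) ^ Module.finrank ℚ L * (U ^ k * Real.exp (k * x / 50) *
            (A.card : ℝ) ^ k)) * (Y ^ k) ^ Module.finrank ℚ L := by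
          rw [mul_pow (2 * C)]
          ring
      _ ≤ 16 ^ k * ((2 * C) ^ Module.finrank ℚ L * (U ^ k * Real.exp (k * x / 50) *
            (A.card : ℝ) ^ k)) * ((A.card : ℝ) ^ k * (x ^ m) ^ k) :=
          mul_le_mul_of_nonneg_left h6 (by positivity)
      _ = _ := by
          rw [mul_pow, mul_pow]
          ring
  have h8 := le_of_mul_le_mul_right h7 (by positivity)
  have h9 : (16 * U * x ^ m) ^ k ≤ Real.exp (k * x / 50) := by
    calc (16 * U * x ^ m) ^ k ≤ Real.exp (x / 50) ^ k := pow_le_pow_left₀ (by positivity) n2 k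
      _ = Real.exp (k * x / 50) := by
          rw [← Real.exp_nat_mul]
          congr 1
          ring
  have h10 : (P.card : ℝ) ≤ (2 * C) ^ Module.finrank ℚ L * Real.exp (k * x / 25) := by
    refine h8.trans ?_
    refine mul_le_mul_of_nonneg_left ?_ (by positivity)
    calc (16 * U * x ^ m) ^ k * Real.exp (k * x / 50) ≤
        Real.exp (k * x / 50) * Real.exp (k * x / 50) :=
          mul_le_mul_of_nonneg_right h9 (Real.exp_pos _).le
      _ = Real.exp (k * x / 25) := by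
          rw [← Real.exp_add]
          congr 1
          ring
  have h11 : Real.exp (k * x / 25) ≤ 2 * Real.exp (4 / 25 * Real.log R) := by
    have e1 : k * x / 25 ≤ Real.log 2 + 4 / 25 * Real.log R := by
      have : 0 ≤ Real.log 2 := Real.log_nonneg (by norm_num)
      linarith
    calc Real.exp (k * x / 25) ≤ Real.exp (Real.log 2 + 4 / 25 * Real.log R) :=
          Real.exp_le_exp.2 e1
      _ = 2 * Real.exp (4 / 25 * Real.log R) := by
          rw [Real.exp_add, Real.exp_log (by norm_num)]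
  calc (P.card : ℝ) ≤ (2 * C) ^ Module.finrank ℚ L * (2 * Real.exp (4 / 25 * Real.log R)) :=
        h10.trans (mul_le_mul_of_nonneg_left h11 (by positivity))
    _ = ((2 * C) ^ Module.finrank ℚ L * 2) * Real.exp (4 / 25 * Real.log R) := by ring
    _ ≤ Real.exp (37 / 100 * x) * Real.exp (4 / 25 * Real.log R) :=
        mul_le_mul_of_nonneg_right n3 (Real.exp_pos _).le
    _ = Real.exp (37 / 100 * x + 4 / 25 * Real.log R) := by rw [Real.exp_add]
    _ ≤ Real.exp (Real.log R * (9 / 10)) := by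
        apply Real.exp_le_exp.2
        linarith
    _ = R ^ (9 / 10 : ℝ) := by rw [Real.rpow_def_of_pos hRpos]

end Pool.Agent.Q123.ESN
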